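import Mathlib

/-! exact identities -/

set_option autoImplicit false
set_option linter.unusedVariables false

namespace Pool.Agent.N926.F77

open Finset

/-- the summand as a polynomial in `X = x (x+1)` -/
def tk (X : ℚ) (k : ℕ) : ℚ := (∏ j ∈ range k, ((j:ℚ)*((j:ℚ)+1) - X)) / (k.factorial : ℚ)^2

theorem tk_zero (X : ℚ) : tk X 0 = 1 := by unfold tk; simp

theorem tk_succ (X : ℚ) (k : ℕ) : tk X (k+1) = tk X k * ((k:ℚ)*((k:ℚ)+1) - X) / ((k:ℚ)+1)^2 := by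
  unfold tk
  rw [prod_range_succ, Nat.factorial_succ]
  push_cast
  have h2 : (k.factorial : ℚ) ≠ 0 := by positivity
  have h3 : (k:ℚ)+1 ≠ 0 := by positivity
  field_simp

theorem tk_van {n k : ℕ} (h : n < k) : tk ((n:ℚ)*((n:ℚ)+1)) k = 0 := by
  unfold tk
  rw [prod_eq_zero (mem_range.2 h) (by ring), zero_div]

/-- auxiliary summand -/
def Uk (n k : ℕ) : ℚ := (∏ j ∈ range k, ((j:ℚ)^2 - ((n:ℚ)+1)^2)) / (k.factorial : ℚ)^2

theorem Uk_succ (n k : ℕ) : Uk n (k+1) = Uk n k * ((k:ℚ)^2 - ((n:ℚ)+1)^2) / ((k:ℚ)+1)^2 := by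
  unfold Uk
  rw [prod_range_succ, Nat.factorial_succ]
  push_cast
  have h2 : (k.factorial : ℚ) ≠ 0 := by positivity
  have h3 : (k:ℚ)+1 ≠ 0 := by positivity
  field_simp

theorem tk_Uk (n k : ℕ) : tk ((n:ℚ)*((n:ℚ)+1)) k * ((n:ℚ)+1) = Uk n k * ((n:ℚ)+1-k) ∧
    tk (((n+1:ℕ):ℚ)*(((n+1:ℕ):ℚ)+1)) k * ((n:ℚ)+1) = Uk n k * ((n:ℚ)+1+k) := by
  induction k with
  | zero => simp [tk_zero, Uk]
  | succ k ih =>
    obtain ⟨h1, h2⟩ := ih
    rw [tk_succ, tk_succ, Uk_succ]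
    have h3 : (k:ℚ)+1 ≠ 0 := by positivity
    push_cast at h2 ⊢
    constructor
    · field_simp
      linear_combination ((k:ℚ)*((k:ℚ)+1) - (n:ℚ)*((n:ℚ)+1)) * h1
    · field_simp
      linear_combination ((k:ℚ)*((k:ℚ)+1) - ((n:ℚ)+1)*((n:ℚ)+1+1)) * h2

theorem sum_Uk (n K : ℕ) : ∑ k ∈ range K, Uk n k = -((K:ℚ)^2 * Uk n K / ((n:ℚ)+1)^2) := by
  induction K with
  | zero => simp
  | succ K ih =>
    rw [sum_range_succ, ih, Uk_succ]
    have h3 : (K:ℚ)+1 ≠ 0 := by positivity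
    have h4 : (n:ℚ)+1 ≠ 0 := by positivity
    push_cast
    field_simp
    ring

theorem Uk_van {n k : ℕ} (h : n + 1 < k) : Uk n k = 0 := by
  unfold Uk
  rw [prod_eq_zero (mem_range.2 h) (by push_cast; ring), zero_div]

/-- `S(n) = 1/(2n+1)` -/
theorem S_closed (n : ℕ) : ∀ K : ℕ, n < K → ∑ k ∈ range K, tk ((n:ℚ)*((n:ℚ)+1)) k / (2*(k:ℚ)+1) = 1/(2*(n:ℚ)+1) := by
  induction n with
  | zero =>
    intro K hK
    obtain ⟨L, rfl⟩ : ∃ L, K = L+1 := ⟨K-1, by omega⟩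
    rw [sum_range_succ', sum_eq_zero]
    · simp [tk_zero]
    · intro k _
      rw [tk_van (Nat.succ_pos k), zero_div]
  | succ n ih =>
    intro K hK
    have key : ∀ L : ℕ, n + 1 < L → ∑ k ∈ range L, tk (((n+1:ℕ):ℚ)*(((n+1:ℕ):ℚ)+1)) k / (2*(k:ℚ)+1) = 1/(2*((n+1:ℕ):ℚ)+1) := by
      intro L hL
      have h1 := ih L (by omega)
      have e : (2*(n:ℚ)+3) * ∑ k ∈ range L, tk (((n+1:ℕ):ℚ)*(((n+1:ℕ):ℚ)+1)) k / (2*(k:ℚ)+1) -
          (2*(n:ℚ)+1) * ∑ k ∈ range L, tk ((n:ℚ)*((n:ℚ)+1)) k / (2*(k:ℚ)+1) = 2 * ∑ k ∈ range L, Uk n k := by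
        rw [mul_sum, mul_sum, mul_sum, ← sum_sub_distrib]
        refine sum_congr rfl fun k _ => ?_
        obtain ⟨a, b⟩ := tk_Uk n k
        have h4 : (n:ℚ)+1 ≠ 0 := by positivity
        have h5 : 2*(k:ℚ)+1 ≠ 0 := by positivity
        have h0 : (2*(n:ℚ)+3) * tk (((n+1:ℕ):ℚ)*(((n+1:ℕ):ℚ)+1)) k - (2*(n:ℚ)+1) * tk ((n:ℚ)*((n:ℚ)+1)) k = 2*(2*(k:ℚ)+1) * Uk n k := by
          apply mul_right_cancel₀ h4
          linear_combination (2*(n:ℚ)+3) * b - (2*(n:ℚ)+1) * a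
        field_simp
        linear_combination h0
      have hz : ∑ k ∈ range L, Uk n k = 0 := by
        rw [sum_Uk]
        rcases Nat.lt_or_ge (n+1) L with h | h
        · rw [Uk_van h]; simp
        · omega
      rw [hz, h1] at e
      have h6 : 2*(n:ℚ)+1 ≠ 0 := by positivity
      have h7 : 2*(n:ℚ)+3 ≠ 0 := by positivity
      rw [mul_one_div_cancel h6] at e
      have h8 : (2*((n+1:ℕ):ℚ)+1) = 2*(n:ℚ)+3 := by push_cast; ring
      rw [h8, eq_div_iff h7]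
      linear_combination e
    exact key K hK

/-- the summand `s_k` -/
def sk (k : ℕ) : ℚ := tk (-(2/9)) k

theorem sk_eq (k : ℕ) : sk k = ((2*k).choose k : ℚ) * ((3*k).choose k : ℚ) / 27^k := by
  have h : ((2*k).choose k : ℚ) * ((3*k).choose k : ℚ) = ((3*k).factorial : ℚ) / (k.factorial : ℚ)^3 := by
    rw [Nat.cast_choose ℚ (by omega : k ≤ 2*k), Nat.cast_choose ℚ (by omega : k ≤ 3*k),
      show 3*k-k = 2*k by omega, show 2*k-k = k by omega]
    have h1 : ((2*k).factorial : ℚ) ≠ 0 := by positivity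
    have h2 : (k.factorial : ℚ) ≠ 0 := by positivity
    field_simp
  rw [h]
  unfold sk
  induction k with
  | zero => simp [tk_zero]
  | succ k ih =>
    have ih' := ih (by
      rw [Nat.cast_choose ℚ (by omega : k ≤ 2*k), Nat.cast_choose ℚ (by omega : k ≤ 3*k),
        show 3*k-k = 2*k by omega, show 2*k-k = k by omega]
      have h1 : ((2*k).factorial : ℚ) ≠ 0 := by positivity
      have h2 : (k.factorial : ℚ) ≠ 0 := by positivity
      field_simp)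
    rw [tk_succ, ih', show 3*(k+1) = 3*k+1+1+1 by ring, Nat.factorial_succ, Nat.factorial_succ,
      Nat.factorial_succ, Nat.factorial_succ k, pow_succ]
    push_cast
    have h2 : (k.factorial : ℚ) ≠ 0 := by positivity
    have h3 : (k:ℚ)+1 ≠ 0 := by positivity
    field_simp
    ring

theorem sum1 (n : ℕ) : ∑ k ∈ range n, sk k / ((k:ℚ)+1) = (9/2) * n * sk n := by
  induction n with
  | zero => simp
  | succ n ih =>
    rw [sum_range_succ, ih]
    unfold sk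
    rw [tk_succ]
    have h3 : (n:ℚ)+1 ≠ 0 := by positivity
    push_cast
    field_simp
    ring

theorem sum2 (n : ℕ) : ∑ k ∈ range n, sk k / ((k:ℚ)+1)^2 = (9/2) * (sk n - 1 + (9/2) * n * sk n) := by
  induction n with
  | zero => simp [sk, tk_zero]
  | succ n ih =>
    rw [sum_range_succ, ih]
    unfold sk
    rw [tk_succ]
    have h3 : (n:ℚ)+1 ≠ 0 := by positivity
    push_cast
    field_simp
    ring

end Pool.Agent.N926.F77
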