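import Pool.Agent.N926.Gen.Q
import Pool.Agent.N926.F77.A

/-! `p`-adic part -/

set_option autoImplicit false
set_option linter.unusedVariables false
set_option linter.unusedSectionVars false

namespace Pool.Agent.N926.F77

open Finset Pool.Agent.N926.Sup2 Pool.Agent.N926.Sup Pool.Agent.N926.F54 Pool.Agent.N926.F37 Pool.Agent.N926.Gen

/-- the regular part -/
def Reg (p h : ℕ) (X : ℚ) : ℚ := ∑ k ∈ (range p).erase h, tk X k / (2*(k:ℚ)+1)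

/-- the cofactor of the singular term -/
def RR (h n : ℕ) (X : ℚ) : ℚ := (∏ j ∈ (range h).erase n, ((j:ℚ)*((j:ℚ)+1) - X)) / (h.factorial : ℚ)^2

theorem tk_RR {h n : ℕ} (hn : n < h) (X : ℚ) : tk X h = ((n:ℚ)*((n:ℚ)+1) - X) * RR h n X := by
  unfold tk RR
  rw [← mul_prod_erase (range h) _ (mem_range.2 hn), mul_div_assoc]

/-- `J` -/
def JJ (h n : ℕ) : ℚ := ∑ j ∈ (range h).erase n, 1/((j:ℚ)*((j:ℚ)+1) - (n:ℚ)*((n:ℚ)+1))

theorem Hs_one (n : ℕ) : Hs 1 n = ∑ l ∈ range n, 1/((l:ℚ)+1) := by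
  have := Hs_add 0 n
  rw [zero_add, Hs_zero, sub_zero] at this
  rw [this]
  refine sum_congr rfl fun l _ => ?_
  push_cast
  ring

theorem JJ_eq {h n : ℕ} (hn : n < h) : JJ h n = (1/(2*(n:ℚ)+1)) * (Hs 1 (h-1-n) - Hs 1 (h+n) + 1/(2*(n:ℚ)+1)) := by
  have h0 : (2*(n:ℚ)+1) ≠ 0 := by positivity
  have e0 : JJ h n = (1/(2*(n:ℚ)+1)) * (∑ j ∈ (range h).erase n, 1/((j:ℚ)-n) - ∑ j ∈ (range h).erase n, 1/((j:ℚ)+n+1)) := by
    unfold JJ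
    rw [← sum_sub_distrib, mul_sum]
    refine sum_congr rfl fun j hj => ?_
    rw [mem_erase] at hj
    have h1 : (j:ℚ) - n ≠ 0 := by
      rw [sub_ne_zero]; exact_mod_cast hj.1
    have h2 : (j:ℚ)+n+1 ≠ 0 := by positivity
    have h3 : (j:ℚ)*((j:ℚ)+1) - (n:ℚ)*((n:ℚ)+1) = ((j:ℚ)-n)*((j:ℚ)+n+1) := by ring
    rw [h3]
    field_simp
    ring
  have e1 : ∑ j ∈ (range h).erase n, 1/((j:ℚ)-n) = - Hs 1 n + Hs 1 (h-1-n) := by
    have e : (range h).erase n = (range n) ∪ (Finset.Ico (n+1) h) := by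
      ext j; simp only [mem_erase, mem_range, mem_union, mem_Ico]; omega
    have d : Disjoint (range n) (Finset.Ico (n+1) h) := by
      rw [Finset.disjoint_left]; intro j; simp only [mem_range, mem_Ico]; omega
    rw [e, sum_union d]
    congr 1
    · rw [Hs_one, ← sum_range_reflect (fun l : ℕ => 1/((l:ℚ)+1)), ← sum_neg_distrib]
      refine sum_congr rfl fun j hj => ?_
      rw [mem_range] at hj
      rw [cast_refl hj, show (j:ℚ) - n = -((n:ℚ)-1-j+1) by ring, div_neg]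
    · rw [Finset.sum_Ico_eq_sum_range, Hs_one, show h-(n+1) = h-1-n by omega]
      refine sum_congr rfl fun j hj => ?_
      congr 1
      push_cast
      ring
  have e2 : ∑ j ∈ (range h).erase n, 1/((j:ℚ)+n+1) = Hs 1 (h+n) - Hs 1 n - 1/(2*(n:ℚ)+1) := by
    have k := Hs_add n h
    rw [add_comm n h] at k
    rw [k, ← add_sum_erase (range h) (fun l : ℕ => 1/((n:ℚ)+l+1)) (mem_range.2 hn)]
    have : ∑ j ∈ (range h).erase n, 1/((j:ℚ)+n+1) = ∑ x ∈ (range h).erase n, 1/((n:ℚ)+x+1) := by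
      refine sum_congr rfl fun j _ => ?_
      rw [add_comm (j:ℚ) n]
    rw [this]
    rw [show (n:ℚ)+n+1 = 2*n+1 by ring]
    ring
  rw [e0, e1, e2]
  ring

section
variable {p : ℕ} [hp : Fact p.Prime] (h2 : p ≠ 2) (h3 : p ≠ 3) {h n n2 : ℕ} (hh : p = 2*h+1)
  {e : ℚ} (he : e*e = 1) (he0 : Dv p 0 e) (hn : 3*(2*(n:ℚ)+1) = 2*p+e) (hn2 : 3*(2*(n2:ℚ)+1) = 4*p-e)
  (hnh : n < h) (hn2p : n2 < p)
include h2 h3 hh he he0 hn hn2 hnh hn2p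

theorem X1_eq : (n:ℚ)*((n:ℚ)+1) = -(2/9) + p*e/9 + p^2/9 := by
  have : (3*(2*(n:ℚ)+1))^2 = (2*p+e)^2 := by rw [hn]
  linear_combination (1/36)*this + (1/36)*he

theorem X2_eq : (n2:ℚ)*((n2:ℚ)+1) = -(2/9) - 2*p*e/9 + 4*p^2/9 := by
  have : (3*(2*(n2:ℚ)+1))^2 = (4*p-e)^2 := by rw [hn2]
  linear_combination (1/36)*this + (1/36)*he

theorem ninth : Dv p 0 (1/9:ℚ) := by
  obtain ⟨q1, q2, q3, q4⟩ := L_int (p := p) h2 h3
  exact Dv_eq (by norm_num) (q1.mul0 q1)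

theorem q_reg : Qs p 1 (-2) (Reg p h (-(2/9))) (Reg p h ((n:ℚ)*((n:ℚ)+1))) (Reg p h ((n2:ℚ)*((n2:ℚ)+1))) := by
  have hs : Dv p 0 (1:ℚ) := Dv.one
  have ht : Dv p 0 (-2:ℚ) := (d2 (p := p)).neg
  have n9 := ninth h2 h3 hh he he0 hn hn2 hnh hn2p
  unfold Reg
  refine Qs.sum _ _ _ _ fun k hk => ?_
  rw [mem_erase, mem_range] at hk
  unfold tk
  rw [div_eq_mul_inv (∏ j ∈ range k, ((j:ℚ)*((j:ℚ)+1) - -(2/9))), div_eq_mul_inv (∏ j ∈ range k, ((j:ℚ)*((j:ℚ)+1) - (n:ℚ)*((n:ℚ)+1))),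
    div_eq_mul_inv (∏ j ∈ range k, ((j:ℚ)*((j:ℚ)+1) - (n2:ℚ)*((n2:ℚ)+1))), div_eq_mul_inv, div_eq_mul_inv, div_eq_mul_inv]
  refine Qs.mul hs ht (Qs.mul hs ht (Qs.prod hs ht _ _ _ _ fun j _ => ?_) (Qs.const ?_)) (Qs.const ?_)
  · rw [X1_eq h2 h3 hh he he0 hn hn2 hnh hn2p, X2_eq h2 h3 hh he he0 hn hn2 hnh hn2p]
    refine Qs.aff (v := -(e*(1/9))) ?_ (he0.mul0 n9).neg ?_ ?_
    · have := (Dv.nat (p := p) (j*(j+1))).add (d2.mul0 n9)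
      push_cast at this
      exact Dv_eq (by ring) this
    · exact Dv_eq (by ring) ((Dv.p_pow (p := p) 2).mul0 n9).neg
    · have d4 : Dv p 0 (4:ℚ) := by simpa using Dv.nat (p := p) 4
      exact Dv_eq (by ring) ((Dv.p_pow (p := p) 2).mul0 (d4.mul0 n9)).neg
  · have u := unit_fact (p := p) h2 h3 hh hk.2
    refine inv_unit (pow_ne_zero _ u.1) ?_
    rw [padicValRat.pow, u.2, mul_zero]
  · have hnd : ¬ p ∣ 2*k+1 := by
      rintro ⟨c, hc⟩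
      have : c < 2 := by
        by_contra hcc
        have : p * 2 ≤ p * c := Nat.mul_le_mul_left _ (by omega)
        omega
      interval_cases c <;> omega
    refine inv_unit (by positivity) ?_
    have := unit_nat hnd
    push_cast at this
    exact this

theorem reg1 : Reg p h ((n:ℚ)*((n:ℚ)+1)) = 3/(2*p+e) := by
  have a := S_closed n p (by omega)
  rw [← add_sum_erase (range p) _ (mem_range.2 (show h < p by omega)), tk_van hnh, zero_div, zero_add] at a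
  unfold Reg
  rw [a, ← hn]
  have : (2*(n:ℚ)+1) ≠ 0 := by positivity
  field_simp

theorem pz : (p:ℚ) = 2*(h:ℚ)+1 := by rw [hh]; push_cast; ring

theorem reg2 : Reg p h ((n2:ℚ)*((n2:ℚ)+1)) = 3/(4*p-e) - (e-p)/3 * RR h n ((n2:ℚ)*((n2:ℚ)+1)) := by
  have a := S_closed n2 p (by omega)
  rw [← add_sum_erase (range p) _ (mem_range.2 (show h < p by omega)), tk_RR hnh] at a
  have hpp : (p:ℚ) ≠ 0 := by exact_mod_cast hp.out.ne_zero
  rw [← pz h2 h3 hh he he0 hn hn2 hnh hn2p] at a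
  unfold Reg
  have b : (((n:ℚ)*((n:ℚ)+1)) - (n2:ℚ)*((n2:ℚ)+1)) = p * ((e-p)/3) := by
    rw [X1_eq h2 h3 hh he he0 hn hn2 hnh hn2p, X2_eq h2 h3 hh he he0 hn hn2 hnh hn2p]; ring
  rw [b] at a
  have c : (3/(4*p-e) : ℚ) = 1/(2*(n2:ℚ)+1) := by
    rw [← hn2]
    have : (2*(n2:ℚ)+1) ≠ 0 := by positivity
    field_simp
  rw [c, ← a]
  field_simp
  ring

theorem sing0 : tk (-(2/9)) h / (2*(h:ℚ)+1) = (p+e)/9 * RR h n (-(2/9)) := by
  have hpp : (p:ℚ) ≠ 0 := by exact_mod_cast hp.out.ne_zero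
  rw [tk_RR hnh, ← pz h2 h3 hh he he0 hn hn2 hnh hn2p]
  have b : (((n:ℚ)*((n:ℚ)+1)) - -(2/9)) = p * ((p+e)/9) := by
    rw [X1_eq h2 h3 hh he he0 hn hn2 hnh hn2p]; ring
  rw [b]
  field_simp

theorem unit_den2 {j : ℕ} (hj : j < h) (hjn : j ≠ n) : ((j:ℚ)*((j:ℚ)+1) - (n:ℚ)*((n:ℚ)+1)) ≠ 0 ∧
    padicValRat p ((j:ℚ)*((j:ℚ)+1) - (n:ℚ)*((n:ℚ)+1)) = 0 := by
  have e1 : ((j:ℚ)*((j:ℚ)+1) - (n:ℚ)*((n:ℚ)+1)) = (((j:ℤ)-n : ℤ):ℚ) * (((j+n+1:ℕ)):ℚ) := by push_cast; ring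
  have u1 : ¬ (p:ℤ) ∣ (j:ℤ) - n := by
    rintro ⟨c, hc⟩
    have hjn' : (j:ℤ) - n ≠ 0 := by
      rw [sub_ne_zero]; exact_mod_cast hjn
    have hc0 : c ≠ 0 := by
      rintro rfl; apply hjn'; rw [hc]; ring
    have : |(j:ℤ) - n| < p := by
      rw [abs_lt]; constructor <;> omega
    rw [hc, abs_mul] at this
    have h5 : 1 ≤ |c| := Int.one_le_abs hc0
    have h6 : |(p:ℤ)| = p := abs_of_nonneg (by positivity)
    rw [h6] at this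
    nlinarith [show (0:ℤ) ≤ p by positivity]
  have u2 : ¬ p ∣ j+n+1 := Nat.not_dvd_of_pos_of_lt (by omega) (by omega)
  have v1 := unit_int (p := p) u1
  have v2 := unit_nat (p := p) u2
  have z1 : (((j:ℤ)-n : ℤ):ℚ) ≠ 0 := by
    have : (j:ℤ) - n ≠ 0 := by
      rw [sub_ne_zero]; exact_mod_cast hjn
    exact_mod_cast this
  have z2 : (((j+n+1:ℕ)):ℚ) ≠ 0 := by positivity
  rw [e1]
  refine ⟨mul_ne_zero z1 z2, ?_⟩
  rw [padicValRat.mul z1 z2, v1, v2, add_zero]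

theorem RR_int : Dv p 0 (RR h n ((n:ℚ)*((n:ℚ)+1))) := by
  unfold RR
  refine Dv.div_unit ?_ ?_
  · have : ∏ j ∈ (range h).erase n, ((j:ℚ)*((j:ℚ)+1) - (n:ℚ)*((n:ℚ)+1)) =
      ((∏ j ∈ (range h).erase n, ((j:ℤ)*((j:ℤ)+1) - (n:ℤ)*((n:ℤ)+1)) : ℤ) : ℚ) := by push_cast; rfl
    rw [this]
    exact Dv.int _
  · have u := unit_fact (p := p) h2 h3 hh (k := h) (by omega)
    rw [padicValRat.pow, u.2, mul_zero]

/-- ratio -/
theorem RR_cong {X u : ℚ} (hX : (n:ℚ)*((n:ℚ)+1) - X = p*u) (hu : Dv p 0 u) :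
    Dv p 2 (RR h n X - RR h n ((n:ℚ)*((n:ℚ)+1)) * (1 + p*u*JJ h n)) := by
  have a := Dv.prod2 (p := p) (n := 1) (by norm_num) ((range h).erase n) (fun j => p*u/((j:ℚ)*((j:ℚ)+1) - (n:ℚ)*((n:ℚ)+1))) (by
    intro j hj
    rw [mem_erase, mem_range] at hj
    exact (Dv.p1.mul0 hu).div_unit (unit_den2 h2 h3 hh he he0 hn hn2 hnh hn2p hj.2 hj.1).2)
  have e1 : ∑ j ∈ (range h).erase n, p*u/((j:ℚ)*((j:ℚ)+1) - (n:ℚ)*((n:ℚ)+1)) = p*u*JJ h n := by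
    unfold JJ
    rw [mul_sum]
    refine sum_congr rfl fun j _ => ?_
    ring
  have e2 : RR h n X = RR h n ((n:ℚ)*((n:ℚ)+1)) * ∏ j ∈ (range h).erase n, (1 + p*u/((j:ℚ)*((j:ℚ)+1) - (n:ℚ)*((n:ℚ)+1))) := by
    unfold RR
    rw [div_mul_eq_mul_div, ← prod_mul_distrib]
    congr 1
    refine prod_congr rfl fun j hj => ?_
    rw [mem_erase, mem_range] at hj
    have := (unit_den2 h2 h3 hh he he0 hn hn2 hnh hn2p hj.2 hj.1).1
    have e3 : (j:ℚ)*((j:ℚ)+1) - X = ((j:ℚ)*((j:ℚ)+1) - (n:ℚ)*((n:ℚ)+1)) + p*u := by linear_combination hX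
    rw [e3]
    generalize ((j:ℚ)*((j:ℚ)+1) - (n:ℚ)*((n:ℚ)+1)) = D at this ⊢
    field_simp
  have hint : Dv p 0 (RR h n ((n:ℚ)*((n:ℚ)+1))) := by
    unfold RR
    refine Dv.div_unit ?_ ?_
    · have : ∏ j ∈ (range h).erase n, ((j:ℚ)*((j:ℚ)+1) - (n:ℚ)*((n:ℚ)+1)) =
        ((∏ j ∈ (range h).erase n, ((j:ℤ)*((j:ℤ)+1) - (n:ℤ)*((n:ℤ)+1)) : ℤ) : ℚ) := by push_cast; rfl
      rw [this]
      exact Dv.int _
    · have u := unit_fact (p := p) h2 h3 hh (k := h) (by omega)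
      rw [padicValRat.pow, u.2, mul_zero]
  rw [e1] at a
  rw [e2]
  exact Dv_eq (by ring) (hint.mul0' a)

theorem JJ_mod : Dv p 1 (JJ h n - 27) := by
  -- harmonic reflection
  have hr : Dv p 1 (Hs 1 (h+n) - Hs 1 (h-n)) := by
    have r := Hz_refl p h2 hh (((h-n:ℕ)) : ZMod p)
    have e1 : -1 - (((h-n:ℕ)) : ZMod p) = ((h+n:ℕ) : ZMod p) := by
      have : (((h-n) + (h+n) + 1 : ℕ) : ZMod p) = 0 := by
        rw [show (h-n) + (h+n) + 1 = p by omega, ZMod.natCast_self]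
      push_cast at this ⊢
      linear_combination -this
    rw [e1, Hz_nat p h2, Hz_nat p h2] at r
    have hb := (Br_Hs (p := p) 1 (h+n) (by omega)).sub (Br_Hs (p := p) 1 (h-n) (by omega))
    refine hb.zero ?_
    have e2 : ∀ m : ℕ, ∑ j ∈ range m, ((((j+1:ℕ) : ZMod p))⁻¹)^1 = hN p m := by
      intro m
      unfold hN
      refine sum_congr rfl fun j _ => ?_
      rw [pow_one]
    rw [e2, e2, r]
    ring
  have hs : Hs 1 (h-n) = Hs 1 (h-1-n) + 1/((h:ℚ)-n) := by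
    obtain ⟨l, hl⟩ : ∃ l, h-n = l+1 := ⟨h-n-1, by omega⟩
    rw [show h-1-n = l by omega, hl, Hs_succ]
    have : ((h:ℚ)-n) = (l:ℚ)+1 := by
      have : ((h-n:ℕ):ℚ) = ((l+1:ℕ):ℚ) := by rw [hl]
      rw [Nat.cast_sub hnh.le] at this
      rw [this]; push_cast; ring
    rw [this]
    simp
  rw [JJ_eq hnh]
  have b0 : (2*(n:ℚ)+1) ≠ 0 := by positivity
  have ub : padicValRat p (2*(n:ℚ)+1) = 0 := by
    have : ¬ p ∣ 2*n+1 := Nat.not_dvd_of_pos_of_lt (by omega) (by omega)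
    have := unit_nat this
    push_cast at this
    exact this
  have ua : padicValRat p ((h:ℚ)-n) = 0 := by
    have : ¬ p ∣ h-n := Nat.not_dvd_of_pos_of_lt (by omega) (by omega)
    have := unit_nat this
    rwa [Nat.cast_sub hnh.le] at this
  have a0 : ((h:ℚ)-n) ≠ 0 := by
    rw [sub_ne_zero]; exact_mod_cast (by omega : h ≠ n)
  have ib := inv_unit b0 ub
  have ia := inv_unit a0 ua
  have k1 : Dv p 1 ((2*(n:ℚ)+1)⁻¹ * (Hs 1 (h+n) - Hs 1 (h-n))) := ib.mul0' hr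
  -- the rest is an exact computation
  have k2 : Dv p 1 ((2*(n:ℚ)+1)⁻¹ * (2*(n:ℚ)+1)⁻¹ * ((h:ℚ)-n)⁻¹ * (p * (1/2 - 27*(2*(n:ℚ)+1)^2/2) + 3/2*(2*(n:ℚ)+1)*(9*(2*(n:ℚ)+1)^2 - 1))) := by
    have hb0 : Dv p 0 (2*(n:ℚ)+1) := by
      have := Dv.nat (p := p) (2*n+1)
      push_cast at this; exact this
    have half := half_int (p := p) h2
    have d27 : Dv p 0 (27:ℚ) := by simpa using Dv.nat (p := p) 27
    have d4 : Dv p 0 (4:ℚ) := by simpa using Dv.nat (p := p) 4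
    refine Dv.mul0' ((ib.mul0 ib).mul0 ia) ?_
    refine Dv.add (Dv.p1.mul0 ?_) ?_
    · refine Dv.sub half ?_
      exact Dv_eq (by ring) ((d27.mul0 half).mul0 ((hb0.mul0 hb0)))
    · have h9 : 9*(2*(n:ℚ)+1)^2 - 1 = p*(4*p + 4*e) := by
        have : (3*(2*(n:ℚ)+1))^2 = (2*p+e)^2 := by rw [hn]
        linear_combination this + he
      rw [h9]
      exact Dv_eq (by ring) (Dv.p1.mul0 (((d3 (p := p)).mul0 half).mul0 (hb0.mul0 ((d4.mul0 dp0).add (d4.mul0 he0)))))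
  refine Dv_eq ?_ (k2.sub k1)
  rw [hs]
  have hp' := pz h2 h3 hh he he0 hn hn2 hnh hn2p
  have hp2 : (p:ℚ) = 2*((h:ℚ)-n) + (2*(n:ℚ)+1) := by rw [hp']; ring
  rw [hp2]
  generalize ((h:ℚ)-n) = a at *
  generalize (2*(n:ℚ)+1) = b at *
  field_simp
  ring

theorem unit_e {c : ℚ} (hc : Dv p 0 c) : p*c + e ≠ 0 ∧ padicValRat p (p*c+e) = 0 := by
  have hen : e ≠ 0 := by
    intro h; rw [h] at he; norm_num at he
  have hv : padicValRat p e = 0 := by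
    have := congrArg (padicValRat p) he
    rw [padicValRat.mul hen hen, padicValRat.one] at this
    omega
  refine unit_of_cong (y := e) ?_ hen hv
  exact Dv_eq (by ring) (Dv.p1.mul0 hc)

theorem RR_mod : Dv p 1 (RR h n ((n:ℚ)*((n:ℚ)+1)) + 18) := by
  have hs : Dv p 0 (1:ℚ) := Dv.one
  have ht : Dv p 0 (-2:ℚ) := (d2 (p := p)).neg
  obtain ⟨q1, q2, q3, q4⟩ := L_int (p := p) h2 h3
  have q := (q_reg h2 h3 hh he he0 hn hn2 hnh hn2p).one hs ht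
  have k := q.2.sub q.1
  rw [reg1 h2 h3 hh he he0 hn hn2 hnh hn2p, reg2 h2 h3 hh he he0 hn hn2 hnh hn2p] at k
  have b : (((n:ℚ)*((n:ℚ)+1)) - (n2:ℚ)*((n2:ℚ)+1)) = p * ((e-p)/3) := by
    rw [X1_eq h2 h3 hh he he0 hn hn2 hnh hn2p, X2_eq h2 h3 hh he he0 hn hn2 hnh hn2p]; ring
  have u0 : Dv p 0 ((e-p)/3) := Dv_eq (by ring) ((he0.sub dp0).mul0 q1)
  have r := RR_cong h2 h3 hh he he0 hn hn2 hnh hn2p b u0
  have d4 : Dv p 0 (4:ℚ) := by simpa using Dv.nat (p := p) 4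
  have d12 : Dv p 0 (12:ℚ) := by simpa using Dv.nat (p := p) 12
  have d6 : Dv p 0 (6:ℚ) := by simpa using Dv.nat (p := p) 6
  have v1 := unit_e h2 h3 hh he he0 hn hn2 hnh hn2p (d2 (p := p))
  have v2 : (4*p - e) ≠ 0 ∧ padicValRat p (4*(p:ℚ)-e) = 0 := by
    have v := unit_e h2 h3 hh he he0 hn hn2 hnh hn2p d4.neg
    have e1 : 4*(p:ℚ) - e = -(p*(-4) + e) := by ring
    rw [e1]
    exact ⟨neg_ne_zero.2 v.1, by rw [padicValRat.neg]; exact v.2⟩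
  have i1 := inv_unit v1.1 v1.2
  have i2 := inv_unit v2.1 v2.2
  have w2 : Dv p 1 (3/(4*p-e) + 3*e) := by
    refine Dv_eq ?_ (Dv.p1.mul0 ((d12.mul0 he0).mul0 i2))
    have hD := mul_inv_cancel₀ v2.1
    rw [div_eq_mul_inv]
    linear_combination (3*e)*hD + (3*(4*(p:ℚ)-e)⁻¹)*he
  have w1 : Dv p 1 (3/(2*p+e) - 3*e) := by
    refine Dv_eq ?_ (Dv.p1.mul0 ((d6.neg.mul0 he0).mul0 i1))
    have hD := mul_inv_cancel₀ v1.1
    rw [div_eq_mul_inv, show (2*(p:ℚ)+e) = p*2+e by ring]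
    linear_combination (-3*e)*hD + (3*((p:ℚ)*2+e)⁻¹)*he
  have jint : Dv p 0 (JJ h n) := by
    have := ((JJ_mod h2 h3 hh he he0 hn hn2 hnh hn2p).mono (by norm_num : (0:ℤ) ≤ 1)).add (Dv.nat 27)
    exact Dv_eq (by push_cast; ring) this
  -- (e-p)/3 R2 ≡ -6 e
  have k3 : Dv p 1 ((e-p)/3 * RR h n ((n2:ℚ)*((n2:ℚ)+1)) + 6*e) := Dv_eq (by ring) ((w2.sub w1).sub k)
  have k4 : Dv p 1 (RR h n ((n2:ℚ)*((n2:ℚ)+1)) - RR h n ((n:ℚ)*((n:ℚ)+1))) := by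
    have hint := RR_int h2 h3 hh he he0 hn hn2 hnh hn2p
    have := (r.mono (by norm_num : (1:ℤ) ≤ 2)).add (Dv.p1.mul0 ((u0.mul0 jint).mul0 hint))
    exact Dv_eq (by ring) this
  have hint := RR_int h2 h3 hh he he0 hn hn2 hnh hn2p
  -- combine
  have k5 := (he0.mul0' (k3.sub (u0.mul0' k4)))
  have k6 : Dv p 1 ((e*e)/3 * RR h n ((n:ℚ)*((n:ℚ)+1)) + 6*(e*e)) := by
    have k7 := k5.add (Dv.p1.mul0 ((he0.mul0 q1).mul0 hint))
    exact Dv_eq (by ring) k7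
  rw [he] at k6
  exact Dv_eq (by push_cast; ring) (smul_int 3 k6)

/-- the key congruence -/
theorem S_mod : Dv p 2 (∑ k ∈ range p, sk k / (2*(k:ℚ)+1) - e) := by
  have hs : Dv p 0 (1:ℚ) := Dv.one
  have ht : Dv p 0 (-2:ℚ) := (d2 (p := p)).neg
  obtain ⟨q1, q2, q3, q4⟩ := L_int (p := p) h2 h3
  have n9 := ninth h2 h3 hh he he0 hn hn2 hnh hn2p
  have q := (q_reg h2 h3 hh he he0 hn hn2 hnh hn2p).final hs ht
  rw [reg1 h2 h3 hh he he0 hn hn2 hnh hn2p, reg2 h2 h3 hh he he0 hn hn2 hnh hn2p] at q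
  have hS : ∑ k ∈ range p, sk k / (2*(k:ℚ)+1) = (p+e)/9 * RR h n (-(2/9)) + Reg p h (-(2/9)) := by
    unfold sk Reg
    rw [← add_sum_erase (range p) _ (mem_range.2 (show h < p by omega)), sing0 h2 h3 hh he he0 hn hn2 hnh hn2p]
  have b2 : (((n:ℚ)*((n:ℚ)+1)) - (n2:ℚ)*((n2:ℚ)+1)) = p * ((e-p)/3) := by
    rw [X1_eq h2 h3 hh he he0 hn hn2 hnh hn2p, X2_eq h2 h3 hh he he0 hn hn2 hnh hn2p]; ring
  have b0 : (((n:ℚ)*((n:ℚ)+1)) - -(2/9)) = p * ((p+e)/9) := by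
    rw [X1_eq h2 h3 hh he he0 hn hn2 hnh hn2p]; ring
  have u2 : Dv p 0 ((e-p)/3) := Dv_eq (by ring) ((he0.sub dp0).mul0 q1)
  have u0 : Dv p 0 ((p+e)/9) := Dv_eq (by ring) ((dp0.add he0).mul0 n9)
  have r2 := RR_cong h2 h3 hh he he0 hn hn2 hnh hn2p b2 u2
  have r0 := RR_cong h2 h3 hh he he0 hn hn2 hnh hn2p b0 u0
  have hint := RR_int h2 h3 hh he he0 hn hn2 hnh hn2p
  have hR := RR_mod h2 h3 hh he he0 hn hn2 hnh hn2p
  have hJ := JJ_mod h2 h3 hh he he0 hn hn2 hnh hn2p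
  have jint : Dv p 0 (JJ h n) := by
    have := (hJ.mono (by norm_num : (0:ℤ) ≤ 1)).add (Dv.nat 27)
    exact Dv_eq (by push_cast; ring) this
  rw [hS]
  generalize RR h n (-(2/9)) = R0 at *
  generalize RR h n ((n2:ℚ)*((n2:ℚ)+1)) = R2 at *
  generalize RR h n ((n:ℚ)*((n:ℚ)+1)) = R1 at *
  generalize JJ h n = J at *
  generalize Reg p h (-(2/9)) = G0 at *
  have d4 : Dv p 0 (4:ℚ) := by simpa using Dv.nat (p := p) 4
  have d12 : Dv p 0 (12:ℚ) := by simpa using Dv.nat (p := p) 12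
  have nn := fun m : ℕ => Dv.nat (p := p) m
  have v1 := unit_e h2 h3 hh he he0 hn hn2 hnh hn2p (d2 (p := p))
  have v2 : (4*p - e) ≠ 0 ∧ padicValRat p (4*(p:ℚ)-e) = 0 := by
    have v := unit_e h2 h3 hh he he0 hn hn2 hnh hn2p d4.neg
    have e1 : 4*(p:ℚ) - e = -(p*(-4) + e) := by ring
    rw [e1]
    exact ⟨neg_ne_zero.2 v.1, by rw [padicValRat.neg]; exact v.2⟩
  have i1 := inv_unit v1.1 v1.2
  have i2 := inv_unit v2.1 v2.2
  -- 6/(2p+e) ≡ 6e - 12p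
  have w1 : Dv p 2 (3/(2*p+e) - (3*e - 6*p)) := by
    have a := ((Dv.p_pow (p := p) 2).mul0 (d12.mul0 i1))
    refine Dv_eq ?_ a
    have hD := mul_inv_cancel₀ v1.1
    rw [div_eq_mul_inv, show (2*(p:ℚ)+e) = p*2+e by ring]
    linear_combination (6*p - 3*e)*hD + (3*((p:ℚ)*2+e)⁻¹)*he
  have w2 : Dv p 2 (3/(4*p-e) - (-3*e - 12*p)) := by
    have a := ((Dv.p_pow (p := p) 2).mul0 ((nn 48).mul0 i2))
    refine Dv_eq ?_ a
    have hD := mul_inv_cancel₀ v2.1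
    rw [div_eq_mul_inv]
    push_cast
    linear_combination (12*p + 3*e)*hD + (3*(4*(p:ℚ)-e)⁻¹)*he
  -- singular parts
  have z1 : Dv p 2 ((p+e)/9 * R0 - (p+e)/9 * (R1 * (1 + p*((p+e)/9)*J))) := Dv_eq (by ring) (u0.mul0' r0)
  have z2 : Dv p 2 ((e-p)/3 * R2 - (e-p)/3 * (R1 * (1 + p*((e-p)/3)*J))) := Dv_eq (by ring) (u2.mul0' r2)
  -- main relation
  have m1 : Dv p 2 (3*((p+e)/9 * (R1 * (1 + p*((p+e)/9)*J))) - (e-p)/3 * (R1 * (1 + p*((e-p)/3)*J)) - 24*p) := by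
    -- = (R1/3) (p (2 - 2J/9)) + p^2 (...)
    have c1 : Dv p 2 (p * ((R1+18) * (1/3) * (2 - 6) - (R1 * (1/3) * ((2:ℕ):ℚ) * (1/9) * (J - 27)))) := by
      have x1 : Dv p 1 ((R1+18) * (1/3) * (2 - 6)) := (hR.mul0 q1).mul0 (d2.sub (Dv_eq (by norm_num) (nn 6)))
      have x2 : Dv p 1 (R1 * (1/3) * ((2:ℕ):ℚ) * (1/9) * (J - 27)) := (((hint.mul0 q1).mul0 (nn 2)).mul0 n9).mul0' hJ
      exact (Dv.p1.mul (x1.sub x2)).mono (by norm_num)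
    have c2 : Dv p 2 ((p:ℚ)^2 * (R1*J*(1/3)*((2*e+p)*(1/9) - (-2*e+p)*(1/3)))) := by
      refine (Dv.p_pow 2).mul0 (((hint.mul0 jint).mul0 q1).mul0 ?_)
      exact ((((d2 (p := p)).mul0 he0).add dp0).mul0 n9).sub ((((ht.mul0 he0).add dp0)).mul0 q1)
    refine Dv_eq ?_ (c1.add c2)
    push_cast
    linear_combination (-(R1*J*p)*(1/27) + (R1*J*p)*(1/9)) * he
  have total := ((((smul_int 3 z1).sub z2).add m1).add ((smul_int 2 w1).add w2)).add q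
  refine Dv.of_unit_mul (y := 3) ?_ (by norm_num) (Dv_eq ?_ total)
  · have : ¬ p ∣ 3 := fun hd => h3 ((Nat.prime_dvd_prime_iff_eq hp.out Nat.prime_three).1 hd)
    have := unit_nat this
    simpa using this
  · push_cast
    ring

end

end Pool.Agent.N926.F77
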